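import Pool.Agent.DQ2.Stmts

/-!
# Squad DQ2, row DM3: the parametrisation for cubics
-/

set_option autoImplicit false

open MvPolynomial

namespace Pool.Agent.DQ2.H86

section

variable {R : Type} [CommRing R] {N : ℕ}

theorem sec_zero (hT : TAY) {F : MvPolynomial (Fin N) R} (hF : F.IsHomogeneous 3)
    {p v : Fin N → R} (hp : eval p F = 0) (hv : lf F p v = 0) : eval (sec F p v) F = 0 := by
  have h := ((hT R N F).2.2 hF p v (eval v F) (-lf F v p)).2.2
  have e : sec F p v = fun j => eval v F * p j + -lf F v p * v j := by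
    funext j
    unfold sec
    ring
  rw [e, h, hp, hv]
  ring

theorem tg_lf (hT : TAY) (F : MvPolynomial (Fin N) R) (p c v : Fin N → R) :
    lf F p (tg F p c v) = 0 := by
  have h := (hT R N F).1 p v c (lf F p c) (-lf F p v)
  have e : tg F p c v = fun j => lf F p c * v j + -lf F p v * c j := by
    funext j
    unfold tg
    ring
  rw [e, h]
  ring

theorem phi3_zero (hT : TAY) {F : MvPolynomial (Fin N) R} (hF : F.IsHomogeneous 3)
    {p : Fin N → R} (hp : eval p F = 0) (v w : Fin N → R) : eval (phi3 F p v w) F = 0 := by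
  unfold phi3
  exact sec_zero hT hF (sec_zero hT hF hp (tg_lf hT F p _ _)) (tg_lf hT F _ _ _)

end

theorem fk_hom (hH : HOM) (n d : ℕ) : (LDP.FK n d).IsHomogeneous d :=
  (hH n d).1.map _

theorem dm3 (hN : NAT) (hT : TAY) (hH : HOM) (hL : LFD) (hC : CRT) (hI : IRR) (hD : DO3) :
    DM3 := by
  intro n k hn hk
  obtain ⟨L, i1, i2, s, hfd, hfr, hs⟩ := (hL n 3 k (by norm_num) hk).1
  have hev := (hL n 3 k (by norm_num) hk).2
  let R := MvPolynomial (Fin (n + 2) ⊕ Fin (n + 2)) L
  let FR : MvPolynomial (Fin (n + 2)) R := map (algebraMap (LDP.KK n 3) R) (LDP.FK n 3)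
  let p : Fin (n + 2) → R := fun j => C (pt (n + 2) (s ^ k) j)
  let Φ : Fin (n + 2) → R := phi3 FR p (fun j => X (Sum.inl j)) (fun j => X (Sum.inr j))
  have hFR : FR.IsHomogeneous 3 := (fk_hom hH n 3).map _
  have hp : eval p FR = 0 := by
    have h1 : eval p FR = aeval p (LDP.FK n 3) := by
      rw [aeval_def, eval_map]
    have h2 : aeval p (LDP.FK n 3) =
        (C : L →+* R) (aeval (pt (n + 2) (s ^ k)) (LDP.FK n 3)) := by
      rw [aeval_def, aeval_def]
      exact (eval₂_comp_left (C : L →+* R) (algebraMap (LDP.KK n 3) L) (pt (n + 2) (s ^ k))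
        (LDP.FK n 3)).symm
    rw [h1, h2, hev L s, hs, map_zero]
  refine ⟨L, i1, i2, Φ, hfd, hfr, ?_, ?_⟩
  · have h1 : aeval Φ (LDP.FK n 3) = eval Φ FR := by
      rw [aeval_def, eval_map]
    rw [h1]
    exact phi3_zero hT hFR hp _ _
  · intro σ g y hy hg
    let E := AlgebraicClosure (LDP.KK n 3)
    let FE : MvPolynomial (Fin (n + 2)) E := map (algebraMap (LDP.KK n 3) E) (LDP.FK n 3)
    have hsE : Polynomial.aeval (σ s) (fK n 3 k) = 0 := by
      rw [Polynomial.aeval_algHom_apply, hs, map_zero]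
    have hpE : eval (pt (n + 2) ((σ s) ^ k)) FE = 0 := by
      have h1 : eval (pt (n + 2) ((σ s) ^ k)) FE =
          aeval (pt (n + 2) ((σ s) ^ k)) (LDP.FK n 3) := by
        rw [aeval_def, eval_map]
      rw [h1, hev E (σ s), hsE]
    have hyE : eval y FE = 0 := by
      have h1 : eval y FE = aeval y (LDP.FK n 3) := by
        rw [aeval_def, eval_map]
      rw [h1, hy]
    obtain ⟨v, w, hvw⟩ := hD E (n + 2) FE g (pt (n + 2) ((σ s) ^ k)) y
      (fun j => ee (n + 2) E 2 j + ee (n + 2) E 3 j) (ee (n + 2) E 3) (ee (n + 2) E 1)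
      ((fk_hom hH n 3).map _) (hI n 3 hn (Or.inr rfl)) hpE
      ((hC n k hn hk).2 E (σ s) hsE) hyE hg
    refine ⟨Sum.elim v w, ?_⟩
    let φ : R →+* E := (eval (Sum.elim v w)).comp (map (σ : L →+* E))
    have hφ : ∀ a, eval (Sum.elim v w) (map (σ : L →+* E) (Φ a)) =
        phi3 FE (pt (n + 2) ((σ s) ^ k)) v w a := by
      intro a
      have h1 := (hN R E φ (n + 2) FR).2.2.2.1 p (fun j => X (Sum.inl j))
        (fun j => X (Sum.inr j)) a
      have h2 : map φ FR = FE := by
        show map φ (map (algebraMap (LDP.KK n 3) R) (LDP.FK n 3)) = _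
        have h7 : φ.comp (algebraMap (LDP.KK n 3) R) = algebraMap (LDP.KK n 3) E := by
          refine RingHom.ext fun c => ?_
          show eval (Sum.elim v w) (map (σ : L →+* E) (algebraMap (LDP.KK n 3) R c)) = _
          have h3 : algebraMap (LDP.KK n 3) R c = C (algebraMap (LDP.KK n 3) L c) := rfl
          rw [h3, map_C, eval_C]
          exact σ.commutes c
        rw [map_map, h7]
      have h3 : (fun j => φ (p j)) = pt (n + 2) ((σ s) ^ k) := by
        funext j
        show eval (Sum.elim v w) (map (σ : L →+* E) (C (pt (n + 2) (s ^ k) j))) = _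
        rw [map_C, eval_C]
        show σ (pt (n + 2) (s ^ k) j) = _
        unfold pt
        split_ifs
        · rw [map_pow]
        · rw [map_one]
        · rw [map_zero]
      have h4 : (fun j : Fin (n + 2) => φ (X (Sum.inl j))) = v := by
        funext j
        show eval (Sum.elim v w) (map (σ : L →+* E) (X (Sum.inl j))) = _
        rw [map_X, eval_X]
        rfl
      have h5 : (fun j : Fin (n + 2) => φ (X (Sum.inr j))) = w := by
        funext j
        show eval (Sum.elim v w) (map (σ : L →+* E) (X (Sum.inr j))) = _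
        rw [map_X, eval_X]
        rfl
      rw [h2, h3, h4, h5] at h1
      exact h1
    have h6 : (fun a => eval (Sum.elim v w) (map (σ : L →+* E) (Φ a))) =
        phi3 FE (pt (n + 2) ((σ s) ^ k)) v w := funext hφ
    show eval (fun a => eval (Sum.elim v w) (map (σ : L →+* E) (Φ a))) g ≠ 0
    rw [h6]
    exact hvw

end Pool.Agent.DQ2.H86
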